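import Pool.Agent.W114.HL.Stm
import Pool.Agent.H951R4.OD.D3

set_option autoImplicit false

/-!
# Many small exact primes, with a rate (task HL-A); adapted from `Pool.Agent.W298.PQ.A`
-/

namespace Pool.Agent.W240.HL

open Finset Pool.Agent.W114.HL Filter Topology
open Pool.Agent.W114.PQ (wX EP)
open Pool.Agent.H951R4.OD (ch PI Ex)
open scoped Classical

theorem one_add_log_le' (a L : ℝ) (ha : 0 < a) (hL : 1 ≤ L) :
    1 + Real.log L ≤ (1 + 1 / a) * L ^ a := by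
  have h1 := Real.log_le_rpow_div (by linarith : (0 : ℝ) ≤ L) ha
  have h2 : 1 ≤ L ^ a := Real.one_le_rpow hL ha.le
  have h3 : (1 + 1 / a) * L ^ a = L ^ a + L ^ a / a := by field_simp
  rw [h3]
  linarith

/-- the covering by the sets with given smallest primes -/
theorem cover_A (D : Dat) (k w X : ℕ) :
    ({n : ℕ | 1 ≤ n ∧ n ≤ X ∧ Pass D n ∧ k ≤ (EP D.c0 w n).card}.ncard : ℝ) ≤
      ∑ ps ∈ (PI 0 w).powersetCard k,
        ({n : ℕ | 1 ≤ n ∧ n ≤ X ∧ Pass D n ∧ (∀ p ∈ ps, Ex D.c0 n p) ∧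
          ∀ p : ℕ, Ex D.c0 n p → p ≤ ps.sup id → p ∈ ps}.ncard : ℝ) := by
  have e1 := Pool.Agent.H951R4.OD.d3_ncard X (fun n => Pass D n ∧ k ≤ (EP D.c0 w n).card)
  have e2 := fun ps : Finset ℕ => Pool.Agent.H951R4.OD.d3_ncard X
    (fun n => Pass D n ∧ (∀ p ∈ ps, Ex D.c0 n p) ∧
      ∀ p : ℕ, Ex D.c0 n p → p ≤ ps.sup id → p ∈ ps)
  rw [e1]
  simp only [e2]
  have hcov : (Icc 1 X).filter (fun n => Pass D n ∧ k ≤ (EP D.c0 w n).card) ⊆
      ((PI 0 w).powersetCard k).biUnion (fun ps =>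
        (Icc 1 X).filter (fun n => Pass D n ∧ (∀ p ∈ ps, Ex D.c0 n p) ∧
          ∀ p : ℕ, Ex D.c0 n p → p ≤ ps.sup id → p ∈ ps)) := by
    intro n hn
    rw [mem_filter] at hn
    obtain ⟨hn1, hn2, hn3⟩ := hn
    have hT : ∀ p ∈ EP D.c0 w n, Ex D.c0 n p ∧ 1 ≤ p ∧ p ≤ w := by
      intro p hp
      simp only [EP, mem_filter, mem_Icc] at hp
      exact ⟨hp.2, hp.1⟩
    have h0 : 0 ∉ EP D.c0 w n := fun h => by
      have := (hT 0 h).2.1
      omega
    obtain ⟨ps, hps, hcard, hdown⟩ := Pool.Agent.H951R4.OD.d3_smallest _ h0 k hn3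
    rw [mem_biUnion]
    refine ⟨ps, mem_powersetCard.2 ⟨?_, hcard⟩, ?_⟩
    · intro p hp
      have := hT p (hps hp)
      simp only [PI, mem_filter, mem_Ioc]
      exact ⟨⟨this.2.1, this.2.2⟩, this.1.1⟩
    · rw [mem_filter]
      refine ⟨hn1, hn2, fun p hp => (hT p (hps hp)).1, fun p hp hle => hdown p ?_ hle⟩
      simp only [EP, mem_filter, mem_Icc]
      refine ⟨⟨hp.1.one_lt.le, hle.trans (Finset.sup_le fun q hq => ?_)⟩, hp⟩
      exact (hT q (hps hq)).2.2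
  have h3 := (Finset.card_le_card hcov).trans Finset.card_biUnion_le
  exact_mod_cast h3

theorem a (ca : S_CA) : S_A := by
  intro D hD hτβ ε hε k hk hκ hκ2
  have hδ : 1 < Dk D k := by
    unfold Dk
    linarith
  have hδ32 : 3 / 2 - ε ≤ Dk D k := by
    unfold Dk
    linarith
  obtain ⟨C, hC, hca⟩ := ca D hD k hk hδ
  obtain ⟨Ck, hCk, hsum⟩ := Pool.Agent.H951R4.OD.sum_inv_prod k
  set δ : ℝ := Dk D k with hδd
  set η : ℝ := 3 / 4 * ε with hη
  have hη0 : 0 < η := by rw [hη]; linarith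
  have hkr : (1 : ℝ) ≤ k := by exact_mod_cast hk
  set b : ℝ := η / (k + δ) with hb
  have hkδ : 0 < (k : ℝ) + δ := by linarith
  have hb0 : 0 < b := div_pos hη0 hkδ
  have hbη : b * (k + δ) = η := by
    rw [hb]
    field_simp
  set M : ℝ := C * Ck * (2 * C) ^ δ * (1 + 1 / b) ^ ((k : ℝ) + δ) with hM
  have hM0 : 0 ≤ M := by positivity
  set Λ : ℝ := (9 * C) ^ (8 : ℕ) with hΛ
  have hΛ0 : 0 < Λ := by positivity
  refine ⟨M + Λ ^ (9 / 8 : ℝ), by positivity, fun X hX3 => ?_⟩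
  have hX3r : (3 : ℝ) ≤ X := by exact_mod_cast hX3
  have hXpos : (0 : ℝ) < X := by linarith
  have hL1 : 1 ≤ Real.log X := by
    rw [Real.le_log_iff_exp_le hXpos]
    have := Real.exp_one_lt_d9
    linarith
  rcases lt_or_ge (Real.log X) Λ with hsm | hL
  · -- small X
    have h1 : ({n : ℕ | 1 ≤ n ∧ n ≤ X ∧ Pass D n ∧ k ≤ (EP D.c0 (wX X) n).card}.ncard : ℝ) ≤ X := by
      have h2 : {n : ℕ | 1 ≤ n ∧ n ≤ X ∧ Pass D n ∧ k ≤ (EP D.c0 (wX X) n).card} ⊆
          ((Icc 1 X : Finset ℕ) : Set ℕ) := by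
        intro n hn
        rw [Finset.mem_coe, mem_Icc]
        exact ⟨hn.1, hn.2.1⟩
      have h3 := Set.ncard_le_ncard h2 (Finset.finite_toSet _)
      rw [Set.ncard_coe_finset, Nat.card_Icc] at h3
      exact_mod_cast (by omega : _ ≤ X)
    have h4 : 1 ≤ Λ ^ (9 / 8 : ℝ) * (Real.log X) ^ (ε - 9 / 8) := by
      have h5 : (Real.log X) ^ (9 / 8 : ℝ) ≤ Λ ^ (9 / 8 : ℝ) :=
        Real.rpow_le_rpow (by linarith) hsm.le (by norm_num)
      calc (1 : ℝ) ≤ (Real.log X) ^ ε := Real.one_le_rpow hL1 hε.le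
        _ = (Real.log X) ^ (9 / 8 : ℝ) * (Real.log X) ^ (ε - 9 / 8) := by
            rw [← Real.rpow_add (by linarith)]
            congr 1
            ring
        _ ≤ Λ ^ (9 / 8 : ℝ) * (Real.log X) ^ (ε - 9 / 8) := by
            gcongr
    have h6 : 0 ≤ (Real.log X) ^ (ε - 9 / 8) := Real.rpow_nonneg (by linarith) _
    calc ({n : ℕ | 1 ≤ n ∧ n ≤ X ∧ Pass D n ∧ k ≤ (EP D.c0 (wX X) n).card}.ncard : ℝ) ≤ X * 1 := by
          rw [mul_one]; exact h1
      _ ≤ X * (Λ ^ (9 / 8 : ℝ) * (Real.log X) ^ (ε - 9 / 8)) := by gcongr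
      _ ≤ (M + Λ ^ (9 / 8 : ℝ)) * X * (Real.log X) ^ (ε - 9 / 8) := by
          have : 0 ≤ M * X * (Real.log X) ^ (ε - 9 / 8) := by positivity
          nlinarith
  set L : ℝ := Real.log X with hLd
  have h9 : (9 : ℝ) ≤ 9 * C := by linarith
  have hL0 : 0 < L := by linarith
  have hlogL : 0 ≤ Real.log L := Real.log_nonneg hL1
  -- L^(1/8) ≥ 9 C
  have hL8 : 9 * C ≤ L ^ (1 / 8 : ℝ) := by
    have h1 : ((9 * C) ^ (8 : ℕ) : ℝ) ^ (1 / 8 : ℝ) ≤ L ^ (1 / 8 : ℝ) :=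
      Real.rpow_le_rpow (by positivity) hL (by norm_num)
    rw [← Real.rpow_natCast, ← Real.rpow_mul (by positivity)] at h1
    norm_num at h1
    exact h1
  set s : ℝ := L / (C * (1 + Real.log L)) with hs
  have hden : 0 < C * (1 + Real.log L) := by positivity
  have h34 : L ^ (3 / 4 : ℝ) ≤ s := by
    rw [hs, le_div_iff₀ hden]
    have h1 := one_add_log_le' (1 / 8) L (by norm_num) hL1
    have h2 : C * (1 + Real.log L) ≤ L ^ (1 / 8 : ℝ) * L ^ (1 / 8 : ℝ) := by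
      calc C * (1 + Real.log L) ≤ C * ((1 + 1 / (1 / 8)) * L ^ (1 / 8 : ℝ)) := by gcongr
        _ = 9 * C * L ^ (1 / 8 : ℝ) := by ring
        _ ≤ L ^ (1 / 8 : ℝ) * L ^ (1 / 8 : ℝ) := by gcongr
    calc L ^ (3 / 4 : ℝ) * (C * (1 + Real.log L)) ≤
          L ^ (3 / 4 : ℝ) * (L ^ (1 / 8 : ℝ) * L ^ (1 / 8 : ℝ)) := by gcongr
      _ = L := by
        rw [← Real.rpow_add hL0, ← Real.rpow_add hL0]
        norm_num
  have h34' : (9 : ℝ) ≤ L ^ (3 / 4 : ℝ) := by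
    have h1 : L ^ (1 / 8 : ℝ) ≤ L ^ (3 / 4 : ℝ) :=
      Real.rpow_le_rpow_of_exponent_le hL1 (by norm_num)
    linarith
  have hs9 : 9 ≤ s := h34'.trans h34
  set w : ℕ := wX X with hw
  set z : ℕ := ⌊Real.exp s⌋₊ with hz
  have hwz : w ≤ z := Nat.floor_mono (Real.exp_le_exp.2 h34)
  have hexp9 : (3 : ℝ) ≤ Real.exp (L ^ (3 / 4 : ℝ)) := by
    have := Real.add_one_le_exp (L ^ (3 / 4 : ℝ))
    linarith
  have hw3 : 3 ≤ w := Nat.le_floor (by exact_mod_cast hexp9)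
  have hz3 : 3 ≤ z := hw3.trans hwz
  have hw3r : (3 : ℝ) ≤ w := by exact_mod_cast hw3
  have hz3r : (3 : ℝ) ≤ z := by exact_mod_cast hz3
  have hexp1 : Real.exp 1 < 3 := by
    have := Real.exp_one_lt_d9
    linarith
  have hlw1 : 1 ≤ Real.log w := by
    rw [Real.le_log_iff_exp_le (by linarith)]; linarith
  have hlz1 : 1 ≤ Real.log z := by
    rw [Real.le_log_iff_exp_le (by linarith)]; linarith
  have hlw : Real.log w ≤ L ^ (3 / 4 : ℝ) := by
    rw [Real.log_le_iff_le_exp (by linarith)]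
    exact Nat.floor_le (Real.exp_pos _).le
  have hlz : Real.log z ≤ s := by
    rw [Real.log_le_iff_le_exp (by linarith)]
    exact Nat.floor_le (Real.exp_pos _).le
  have hlz' : s / 2 ≤ Real.log z := by
    have h1 : Real.exp s < z + 1 := Nat.lt_floor_add_one _
    have h2 : Real.exp (s / 2) ≤ z := by
      have h3 : Real.exp s = Real.exp (s / 2) * Real.exp (s / 2) := by
        rw [← Real.exp_add]
        congr 1
        ring
      have h4 : 2 ≤ Real.exp (s / 2) := by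
        have := Real.add_one_le_exp (s / 2)
        linarith
      nlinarith
    rw [Real.le_log_iff_exp_le (by linarith)]
    exact h2
  have hsL : s ≤ L := by
    rw [hs, div_le_iff₀ hden]
    have : 1 ≤ C * (1 + Real.log L) := by nlinarith
    nlinarith
  have hllz : Real.log (Real.log z) ≤ Real.log L :=
    Real.log_le_log (by linarith) (hlz.trans hsL)
  have hllz0 : 0 ≤ Real.log (Real.log z) := Real.log_nonneg hlz1
  have hcond : C * Real.log z * (1 + Real.log (Real.log z)) ≤ Real.log X := by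
    calc C * Real.log z * (1 + Real.log (Real.log z)) ≤ C * s * (1 + Real.log L) := by
          gcongr
      _ = L := by
        rw [hs]
        field_simp
  -- the sum
  have h1 := cover_A D k w X
  have h2 : ∀ ps ∈ (PI 0 w).powersetCard k,
      ({n : ℕ | 1 ≤ n ∧ n ≤ X ∧ Pass D n ∧ (∀ p ∈ ps, Ex D.c0 n p) ∧
          ∀ p : ℕ, Ex D.c0 n p → p ≤ ps.sup id → p ∈ ps}.ncard : ℝ) ≤
      (C * X * (Real.log w) ^ (δ - 1) * (Real.log z) ^ (-δ)) * (1 / ∏ p ∈ ps, (p : ℝ)) := by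
    intro ps hps
    obtain ⟨hc, hpp⟩ := Pool.Agent.H951R4.OD.d3_ps hps
    refine (hca w z X hw3 hwz hcond ps hc hpp).trans (le_of_eq ?_)
    ring
  have h3 := h1.trans (Finset.sum_le_sum h2)
  rw [← Finset.mul_sum] at h3
  have hR1 : 0 ≤ (Real.log w) ^ (δ - 1) := Real.rpow_nonneg (by linarith) _
  have hR2 : 0 ≤ (Real.log z) ^ (-δ) := Real.rpow_nonneg (by linarith) _
  have h4 : ∑ ps ∈ (PI 0 w).powersetCard k, 1 / ∏ p ∈ ps, (p : ℝ) ≤
      Ck * (1 + Real.log L) ^ k := by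
    refine (hsum w hw3).trans ?_
    have h5 : Real.log (Real.log w) ≤ Real.log L := by
      apply Real.log_le_log (by linarith)
      refine hlw.trans ((h34.trans hsL))
    have h6 : 0 ≤ Real.log (Real.log w) := Real.log_nonneg hlw1
    gcongr
  have h5 : (Real.log w) ^ (δ - 1) ≤ L ^ (3 / 4 * (δ - 1)) := by
    rw [Real.rpow_mul hL0.le]
    exact Real.rpow_le_rpow (by linarith) hlw (by linarith)
  have h6 : (Real.log z) ^ (-δ) ≤ (2 * C) ^ δ * (1 + Real.log L) ^ δ * L ^ (-δ) := by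
    have h7 : (Real.log z) ^ (-δ) ≤ (s / 2) ^ (-δ) :=
      Real.rpow_le_rpow_of_nonpos (by linarith) hlz' (by linarith)
    refine h7.trans (le_of_eq ?_)
    have h8 : s / 2 = (2 * C * (1 + Real.log L))⁻¹ * L := by
      rw [hs]
      field_simp
    rw [h8, Real.mul_rpow (by positivity) hL0.le, Real.inv_rpow (by positivity),
      Real.rpow_neg (by positivity), inv_inv, Real.mul_rpow (by positivity) (by positivity)]
  have h7 : (1 + Real.log L) ^ ((k : ℝ) + δ) ≤ (1 + 1 / b) ^ ((k : ℝ) + δ) * L ^ η := by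
    have h8 := one_add_log_le' b L hb0 hL1
    calc (1 + Real.log L) ^ ((k : ℝ) + δ) ≤ ((1 + 1 / b) * L ^ b) ^ ((k : ℝ) + δ) :=
          Real.rpow_le_rpow (by positivity) h8 (by positivity)
      _ = (1 + 1 / b) ^ ((k : ℝ) + δ) * L ^ η := by
        rw [Real.mul_rpow (by positivity) (by positivity), ← Real.rpow_mul hL0.le, hbη]
  have hpos1 : 0 ≤ (1 + Real.log L) ^ δ := by positivity
  have hexp : L ^ (3 / 4 * (δ - 1) - δ + η) ≤ L ^ (ε - 9 / 8) := by
    apply Real.rpow_le_rpow_of_exponent_le hL1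
    rw [hη]
    linarith
  calc ({n : ℕ | 1 ≤ n ∧ n ≤ X ∧ Pass D n ∧ k ≤ (EP D.c0 w n).card}.ncard : ℝ)
      ≤ ((C * X * (Real.log w) ^ (δ - 1) * (Real.log z) ^ (-δ)) *
          ∑ ps ∈ (PI 0 w).powersetCard k, 1 / ∏ p ∈ ps, (p : ℝ)) := h3
    _ ≤ ((C * X * L ^ (3 / 4 * (δ - 1)) * ((2 * C) ^ δ * (1 + Real.log L) ^ δ * L ^ (-δ))) *
          (Ck * (1 + Real.log L) ^ k)) := by gcongr
    _ = C * Ck * (2 * C) ^ δ * ((1 + Real.log L) ^ k * (1 + Real.log L) ^ δ) *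
          (L ^ (3 / 4 * (δ - 1)) * L ^ (-δ)) * X := by
        ring
    _ = C * Ck * (2 * C) ^ δ * (1 + Real.log L) ^ ((k : ℝ) + δ) *
          L ^ (3 / 4 * (δ - 1) - δ) * X := by
        rw [← Real.rpow_natCast (1 + Real.log L) k, ← Real.rpow_add (by positivity),
          ← Real.rpow_add hL0]
        rfl
    _ ≤ C * Ck * (2 * C) ^ δ * ((1 + 1 / b) ^ ((k : ℝ) + δ) * L ^ η) *
          L ^ (3 / 4 * (δ - 1) - δ) * X := by gcongr
    _ = M * L ^ (3 / 4 * (δ - 1) - δ + η) * X := by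
        have h8 : L ^ (3 / 4 * (δ - 1) - δ + η) = L ^ (3 / 4 * (δ - 1) - δ) * L ^ η :=
          Real.rpow_add hL0 _ _
        rw [h8, hM]
        ring
    _ ≤ M * L ^ (ε - 9 / 8) * X := by gcongr
    _ ≤ (M + Λ ^ (9 / 8 : ℝ)) * X * L ^ (ε - 9 / 8) := by
        have : 0 ≤ Λ ^ (9 / 8 : ℝ) * X * L ^ (ε - 9 / 8) := by positivity
        nlinarith

end Pool.Agent.W240.HL
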